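import Mathlib
import Pool.Agent.V1148.M7Lines
import Pool.Agent.V1148.MinGen

set_option autoImplicit false

/-!
# Seven lines whose syzygy degree is not one more than a generator degree
-/

namespace Pool.Agent.Results.MP_ac8f1a_ag.SevenLines

open MvPolynomial Pool.Agent.V1148 Pool.Agent.V1148.M52 Pool.Agent.V1148.M7

section defs

variable {K : Type*} [Field K] {l n m : ℕ}

/-- `g_1, …, g_{l+1}` are the quotients `(-1)^i det M_i = g_i Q` (with `i = 1, …, l+1`), where
`M_i` is the matrix `(θ_k(x_j))` with row `i` deleted. -/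
def AreQuotients (A : Fin n → Fin l → K)
    (θ : Fin (l + 1) → Derivation K (MvPolynomial (Fin l) K) (MvPolynomial (Fin l) K))
    (g : Fin (l + 1) → MvPolynomial (Fin l) K) : Prop :=
  ∀ i : Fin (l + 1), (-1) ^ (i.val + 1) * (coefMatrix fun k : Fin l => θ (i.succAbove k)).det =
    g i * defPoly A

/-- Homogeneous polynomials of positive degree (and zero). -/
def InPos (f : MvPolynomial (Fin l) K) : Prop := ∃ d, 0 < d ∧ f.IsHomogeneous d

/-- The polynomials `f_i` have a non-trivial common divisor modulo `α`. -/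
def HasCommonDivisorMod (f : Fin m → MvPolynomial (Fin l) K) (α : MvPolynomial (Fin l) K) :
    Prop :=
  ∃ h, InPos h ∧ ∀ i, f i ∈ Ideal.span {h, α}

/-- The module `M` has projective dimension one: it is not projective and it has a resolution
of length one by free modules of finite rank. -/
def HasProjDimOne (R : Type*) [CommRing R] (M : Type*) [AddCommGroup M] [Module R M] : Prop :=
  ¬ Module.Projective R M ∧ ∃ (a b : ℕ) (f : (Fin a → R) →ₗ[R] (Fin b → R))
    (π : (Fin b → R) →ₗ[R] M), Function.Injective f ∧ Function.Surjective π ∧ Function.Exact f π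

/-- The conclusion of the question: `D(A)` has a minimal homogeneous generating set
`θ_1, …, θ_p` (`p = l + r`) of degrees `d_1, …, d_p` whose module of relations is free with a basis
`ρ_{l+1}, …, ρ_p` of homogeneous relations of degrees `d_{l+1} + 1, …, d_p + 1`. -/
def HasLinearShape (A : Fin n → Fin l → K) : Prop :=
  ∃ (r : ℕ) (d : Fin (l + r) → ℕ)
    (θ : Fin (l + r) → Derivation K (MvPolynomial (Fin l) K) (MvPolynomial (Fin l) K))
    (ρ : Fin r → Fin (l + r) → MvPolynomial (Fin l) K),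
    (∀ i, IsHomogDer (θ i) (d i)) ∧
    Submodule.span (MvPolynomial (Fin l) K) (Set.range θ) = logDer A ∧
    (∀ i, θ i ∉ Submodule.span (MvPolynomial (Fin l) K) (θ '' {i}ᶜ)) ∧
    (∀ j i, (ρ j i).IsHomogeneous (d (Fin.natAdd l j) + 1 - d i) ∧
      (d (Fin.natAdd l j) + 1 < d i → ρ j i = 0)) ∧
    LinearIndependent (MvPolynomial (Fin l) K) ρ ∧
    ∀ c : Fin (l + r) → MvPolynomial (Fin l) K, ∑ i, c i • θ i = 0 ↔
      c ∈ Submodule.span (MvPolynomial (Fin l) K) (Set.range ρ)

end defs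

variable {K : Type*} [Field K]

theorem hl : (X 1 - 2 * X 0 : MvPolynomial (Fin 3) K).IsHomogeneous 1 := by
  have : (2 * X 0 : MvPolynomial (Fin 3) K) = C 2 * X 0 := by
    rw [map_ofNat]
  rw [this]
  exact (isHomogeneous_X K 1).sub (isHomogeneous_C_mul_X _ _)

theorem hq0 : (X 2 ^ 2 - X 0 ^ 2 : MvPolynomial (Fin 3) K).IsHomogeneous 2 :=
  (isHomogeneous_X_pow 2 2).sub (isHomogeneous_X_pow 0 2)

theorem hq1 : (X 2 ^ 2 - X 1 ^ 2 : MvPolynomial (Fin 3) K).IsHomogeneous 2 :=
  (isHomogeneous_X_pow 2 2).sub (isHomogeneous_X_pow 1 2)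

theorem T0_homog : IsHomogDer (T0 (K := K)) 1 :=
  mk_homog (isHomogeneous_X K 0) (isHomogeneous_X K 1) (isHomogeneous_X K 2)

theorem T1_homog : IsHomogDer (T1 (K := K)) 4 :=
  mk_homog (isHomogeneous_zero _ _ _) (((isHomogeneous_X K 1).mul hl).mul hq1)
    (isHomogeneous_zero _ _ _)

theorem T2_homog : IsHomogDer (T2 (K := K)) 4 :=
  mk_homog (isHomogeneous_zero _ _ _) (((isHomogeneous_X K 1).mul hl).mul hq0).neg
    (((isHomogeneous_X K 2).mul hl).mul hq0).neg

theorem T3_homog : IsHomogDer (T3 (K := K)) 4 :=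
  mk_homog (isHomogeneous_zero _ _ _) (isHomogeneous_zero _ _ _) (hq0.mul hq1)

/-- The four generators. -/
noncomputable def T : Fin 4 → Derivation K (MvPolynomial (Fin 3) K) (MvPolynomial (Fin 3) K) :=
  ![T0, T1, T2, T3]

theorem T_mem (k : Fin 4) : T k ∈ logDer (B : Fin 7 → Fin 3 → K) := by
  fin_cases k
  · exact T0_mem
  · exact T1_mem
  · exact T2_mem
  · exact T3_mem

/-- The relation. -/
noncomputable def q : Fin 4 → MvPolynomial (Fin 3) K :=
  ![0, X 2 ^ 2 - X 0 ^ 2, X 2 ^ 2 - X 1 ^ 2, X 2 * (X 1 - 2 * X 0)]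

theorem q_const (k : Fin 4) : constantCoeff (q (K := K) k) = 0 := by
  fin_cases k <;> simp [q]

theorem q_rel : ∑ k, (q (K := K) k) • T (K := K) k = 0 := by
  rw [Fin.sum_univ_four]
  apply der_ext3
  · simp [q, T, T0, T1, T2, T3]
  · simp [q, T, T0, T1, T2, T3]
    ring
  · simp [q, T, T0, T1, T2, T3]
    ring

variable [CharZero K]

theorem q1_ne : (q 1 : MvPolynomial (Fin 3) K) ≠ 0 := by
  intro h
  have := congrArg (aeval (![0, 1, 1] : Fin 3 → K)) h
  simp [q] at this

theorem rel_iff (a : Fin 4 → MvPolynomial (Fin 3) K) (h : ∑ k, a k • T (K := K) k = 0) :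
    ∃ s : MvPolynomial (Fin 3) K, a = s • q (K := K) := by
  rw [Fin.sum_univ_four] at h
  obtain ⟨s, h0, h1, h2, h3⟩ := rel_T (a0 := a 0) (a1 := a 1) (a2 := a 2) (a3 := a 3) h
  refine ⟨s, ?_⟩
  funext k
  fin_cases k
  · simpa [q] using h0
  · simpa [q] using h1
  · simpa [q] using h2
  · simpa [q] using h3

theorem span_eq : Submodule.span (MvPolynomial (Fin 3) K) (Set.range T) =
    logDer (B : Fin 7 → Fin 3 → K) := by
  apply le_antisymm
  · rw [Submodule.span_le]
    rintro _ ⟨k, rfl⟩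
    exact T_mem k
  · intro θ hθ
    obtain ⟨a0, a1, a2, a3, rfl⟩ := span_T hθ
    have h : ∀ k, T k ∈ Submodule.span (MvPolynomial (Fin 3) K) (Set.range (T (K := K))) :=
      fun k => Submodule.subset_span ⟨k, rfl⟩
    exact Submodule.add_mem _ (Submodule.add_mem _ (Submodule.add_mem _
      (Submodule.smul_mem _ _ (h 0)) (Submodule.smul_mem _ _ (h 1)))
      (Submodule.smul_mem _ _ (h 2))) (Submodule.smul_mem _ _ (h 3))

/-- The presentation map. -/
noncomputable def pres : (Fin 4 → MvPolynomial (Fin 3) K) →ₗ[MvPolynomial (Fin 3) K]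
    logDer (B : Fin 7 → Fin 3 → K) :=
  Fintype.linearCombination (MvPolynomial (Fin 3) K)
    (fun k => (⟨T k, T_mem k⟩ : logDer (B : Fin 7 → Fin 3 → K)))

theorem pres_coe (a : Fin 4 → MvPolynomial (Fin 3) K) :
    ((pres a : logDer (B : Fin 7 → Fin 3 → K)) :
      Derivation K (MvPolynomial (Fin 3) K) (MvPolynomial (Fin 3) K)) = ∑ k, a k • T k := by
  rw [pres, Fintype.linearCombination_apply]
  simp

theorem pres_surj : Function.Surjective (pres (K := K)) := by
  rintro ⟨θ, hθ⟩
  rw [← span_eq, Submodule.mem_span_range_iff_exists_fun] at hθ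
  obtain ⟨c, hc⟩ := hθ
  refine ⟨c, ?_⟩
  apply Subtype.ext
  rw [pres_coe, hc]

theorem pres_zero (a : Fin 4 → MvPolynomial (Fin 3) K) :
    pres a = 0 ↔ ∃ s : MvPolynomial (Fin 3) K, a = s • q := by
  constructor
  · intro h
    apply rel_iff
    rw [← pres_coe, h]
    rfl
  · rintro ⟨s, rfl⟩
    apply Subtype.ext
    rw [pres_coe]
    have h1 : ∑ k, (s • q (K := K)) k • T (K := K) k = s • ∑ k, q (K := K) k • T (K := K) k := by
      rw [Finset.smul_sum]
      apply Finset.sum_congr rfl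
      intro k _
      rw [Pi.smul_apply, smul_smul, smul_eq_mul]
    rw [h1, q_rel, smul_zero]
    rfl

theorem not_projective :
    ¬ Module.Projective (MvPolynomial (Fin 3) K) (logDer (B : Fin 7 → Fin 3 → K)) := by
  intro hp
  obtain ⟨s, hs⟩ := Module.projective_lifting_property (pres (K := K)) LinearMap.id pres_surj
  have hs' : ∀ x, pres (s x) = x := fun x => LinearMap.congr_fun hs x
  have hN : ∀ x : Fin 4 → MvPolynomial (Fin 3) K, ∃ t : MvPolynomial (Fin 3) K,
      x - s (pres x) = t • q := by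
    intro x
    rw [← pres_zero, map_sub, hs', sub_self]
  choose t ht using hN
  have hq : pres (K := K) q = 0 := (pres_zero _).2 ⟨1, by rw [one_smul]⟩
  have h1 : q = (∑ k, q (K := K) k * t (Pi.single k 1)) •
      (q : Fin 4 → MvPolynomial (Fin 3) K) := by
    have h2 : (q : Fin 4 → MvPolynomial (Fin 3) K) - s (pres q) =
        ∑ k, q (K := K) k • ((Pi.single k (1 : MvPolynomial (Fin 3) K)) -
          s (pres (Pi.single k (1 : MvPolynomial (Fin 3) K)))) := by
      have h3 : (q : Fin 4 → MvPolynomial (Fin 3) K) =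
          ∑ k, q (K := K) k • Pi.single k (1 : MvPolynomial (Fin 3) K) := by
        conv_lhs => rw [pi_eq_sum_univ' (q : Fin 4 → MvPolynomial (Fin 3) K)]
      simp only [smul_sub, Finset.sum_sub_distrib]
      rw [← h3]
      congr 1
      conv_lhs => rw [h3]
      rw [map_sum, map_sum]
      apply Finset.sum_congr rfl
      intro k _
      rw [map_smul, map_smul]
    rw [hq, map_zero, sub_zero] at h2
    rw [Finset.sum_smul]
    conv_lhs => rw [h2]
    apply Finset.sum_congr rfl
    intro k _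
    rw [ht, smul_smul]
  have h4 := congrFun h1 1
  rw [Pi.smul_apply, smul_eq_mul] at h4
  have h5 : ∑ k, q (K := K) k * t (Pi.single k 1) = (1 : MvPolynomial (Fin 3) K) := by
    apply mul_right_cancel₀ q1_ne
    rw [one_mul]
    exact h4.symm
  have h6 := congrArg constantCoeff h5
  rw [map_sum, map_one, Finset.sum_eq_zero] at h6
  · exact zero_ne_one h6
  · intro k _
    rw [map_mul, q_const, zero_mul]

theorem projDimOne :
    HasProjDimOne (MvPolynomial (Fin 3) K) (logDer (B : Fin 7 → Fin 3 → K)) := by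
  refine ⟨not_projective, 1, 4,
    (LinearMap.toSpanSingleton (MvPolynomial (Fin 3) K) _ q) ∘ₗ LinearMap.proj 0, pres, ?_,
    pres_surj, ?_⟩
  · intro x y hxy
    have h1 := congrFun hxy 1
    simp only [LinearMap.comp_apply, LinearMap.proj_apply, LinearMap.toSpanSingleton_apply,
      Pi.smul_apply, smul_eq_mul] at h1
    funext i
    have : i = 0 := Subsingleton.elim _ _
    rw [this]
    exact mul_right_cancel₀ q1_ne h1
  · intro y
    rw [pres_zero]
    constructor
    · rintro ⟨s, rfl⟩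
      exact ⟨fun _ => s, rfl⟩
    · rintro ⟨x, rfl⟩
      exact ⟨x 0, rfl⟩

theorem no_shape : ¬ HasLinearShape (B : Fin 7 → Fin 3 → K) := by
  rintro ⟨r, d, θ, ρ, hd, hspan, hmin, hρ, hli, hex⟩
  have he : ∀ k, IsHomogDer (T (K := K) k) ((![1, 4, 4, 4] : Fin 4 → ℕ) k) := by
    intro k
    fin_cases k
    · exact T0_homog
    · exact T1_homog
    · exact T2_homog
    · exact T3_homog
  have hsp : Submodule.span (MvPolynomial (Fin 3) K) (Set.range (T (K := K))) =
      Submodule.span (MvPolynomial (Fin 3) K) (Set.range θ) := by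
    rw [span_eq, hspan]
  have hdle : ∀ i, d i ≤ 4 := minGen_degree_le hd hmin he hsp (by decide)
  have hr : ∀ j : Fin r, False := by
    intro j
    apply hli.ne_zero j
    funext i
    apply minGen_no_relation hd hmin he hsp (d (Fin.natAdd 3 j) + 1) _ (ρ j)
      ((hex _).2 (Submodule.subset_span ⟨j, rfl⟩)) (hρ j)
    intro a ha hah
    obtain ⟨s, hs⟩ := rel_iff a ha
    have h1 := hah 1
    rw [hs] at h1
    have h2 : (![1, 4, 4, 4] : Fin 4 → ℕ) 1 = 4 := rfl
    rw [h2] at h1
    have h3 := hdle (Fin.natAdd 3 j)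
    have hs0 : s = 0 := by
      have hq1' : (q 1 : MvPolynomial (Fin 3) K).IsHomogeneous 2 := by
        have : (q 1 : MvPolynomial (Fin 3) K) = X 2 ^ 2 - X 0 ^ 2 := rfl
        rw [this]
        exact hq0
      apply eq_zero_of_mul_right (q := q 1) (k := 2) hq1' q1_ne h1.1
      omega
    intro k
    rw [hs, hs0, zero_smul]
    rfl
  have hr0 : r = 0 := by
    by_contra hne
    exact hr ⟨0, Nat.pos_of_ne_zero hne⟩
  subst hr0
  apply not_projective (K := K)
  have hlin : LinearIndependent (MvPolynomial (Fin 3) K) θ := by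
    rw [Fintype.linearIndependent_iff]
    intro c hc i
    rw [hex, Set.range_eq_empty, Submodule.span_empty, Submodule.mem_bot] at hc
    rw [hc]
    rfl
  rw [← hspan]
  exact Module.Projective.of_basis (Module.Basis.span hlin)

/-- The four derivations in the hypothesis. -/
noncomputable def θ₀ : Fin 4 → Derivation K (MvPolynomial (Fin 3) K) (MvPolynomial (Fin 3) K) :=
  ![T0, T1 + (X 0 ^ 3 : MvPolynomial (Fin 3) K) • T0, T2, T3]

/-- The four quotients. -/
noncomputable def g₀ : Fin 4 → MvPolynomial (Fin 3) K :=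
  ![X 0 ^ 3 * (X 2 ^ 2 - X 0 ^ 2), -(X 2 ^ 2 - X 0 ^ 2), -(X 2 ^ 2 - X 1 ^ 2),
    -(X 2 * (X 1 - 2 * X 0))]

theorem Q_eq : defPoly (B : Fin 7 → Fin 3 → K) =
    X 0 * X 1 * (X 1 - 2 * X 0) * (X 2 ^ 2 - X 0 ^ 2) * (X 2 ^ 2 - X 1 ^ 2) := by
  unfold defPoly
  rw [Fin.prod_univ_seven]
  simp only [lin_c]
  simp
  ring

theorem quotients : AreQuotients (B : Fin 7 → Fin 3 → K) θ₀ g₀ := by
  intro i
  rw [Q_eq, Matrix.det_fin_three]
  simp only [coefMatrix, Matrix.of_apply]
  fin_cases i
  · have e0 : (Fin.succAbove (⟨0, by decide⟩ : Fin 4) (0 : Fin 3)) = 1 := by decide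
    have e1 : (Fin.succAbove (⟨0, by decide⟩ : Fin 4) (1 : Fin 3)) = 2 := by decide
    have e2 : (Fin.succAbove (⟨0, by decide⟩ : Fin 4) (2 : Fin 3)) = 3 := by decide
    simp only [e0, e1, e2]
    simp [θ₀, g₀, T0, T1, T2, T3]
    ring
  · have e0 : (Fin.succAbove (⟨1, by decide⟩ : Fin 4) (0 : Fin 3)) = 0 := by decide
    have e1 : (Fin.succAbove (⟨1, by decide⟩ : Fin 4) (1 : Fin 3)) = 2 := by decide
    have e2 : (Fin.succAbove (⟨1, by decide⟩ : Fin 4) (2 : Fin 3)) = 3 := by decide
    simp only [e0, e1, e2]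
    simp [θ₀, g₀, T0, T1, T2, T3]
    ring
  · have e0 : (Fin.succAbove (⟨2, by decide⟩ : Fin 4) (0 : Fin 3)) = 0 := by decide
    have e1 : (Fin.succAbove (⟨2, by decide⟩ : Fin 4) (1 : Fin 3)) = 1 := by decide
    have e2 : (Fin.succAbove (⟨2, by decide⟩ : Fin 4) (2 : Fin 3)) = 3 := by decide
    simp only [e0, e1, e2]
    simp [θ₀, g₀, T0, T1, T2, T3]
    ring
  · have e0 : (Fin.succAbove (⟨3, by decide⟩ : Fin 4) (0 : Fin 3)) = 0 := by decide
    have e1 : (Fin.succAbove (⟨3, by decide⟩ : Fin 4) (1 : Fin 3)) = 1 := by decide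
    have e2 : (Fin.succAbove (⟨3, by decide⟩ : Fin 4) (2 : Fin 3)) = 2 := by decide
    simp only [e0, e1, e2]
    simp [θ₀, g₀, T0, T1, T2, T3]
    ring

theorem no_common : ¬ HasCommonDivisorMod (fun i : Fin 3 => g₀ (K := K) i.castSucc)
    (g₀ (Fin.last 3)) := by
  rintro ⟨h, ⟨k, hk, hh⟩, hmem⟩
  -- restrict to the plane `z = 0`
  let ε : MvPolynomial (Fin 3) K →ₐ[K] MvPolynomial (Fin 3) K := aeval ![X 0, X 1, 0]
  have hg3 : ε (g₀ (Fin.last 3)) = 0 := by
    have : (g₀ (Fin.last 3) : MvPolynomial (Fin 3) K) = -(X 2 * (X 1 - 2 * X 0)) := rfl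
    rw [this]
    simp [ε]
  have hdiv : ∀ F : MvPolynomial (Fin 3) K, F ∈ Ideal.span {h, g₀ (Fin.last 3)} →
      ε h ∣ ε F := by
    intro F hF
    rw [Ideal.mem_span_pair] at hF
    obtain ⟨a, b, rfl⟩ := hF
    rw [map_add, map_mul, map_mul, hg3, mul_zero, add_zero]
    exact dvd_mul_left _ _
  have h1 : ε h ∣ X 0 ^ 2 := by
    have h2 := hdiv _ (hmem 1)
    have h3 : ε (g₀ (Fin.castSucc (1 : Fin 3))) = X 0 ^ 2 := by
      have : (g₀ (Fin.castSucc (1 : Fin 3)) : MvPolynomial (Fin 3) K) =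
        -(X 2 ^ 2 - X 0 ^ 2) := rfl
      rw [this]
      simp [ε]
    rwa [h3] at h2
  have h2 : ε h ∣ X 1 ^ 2 := by
    have h2 := hdiv _ (hmem 2)
    have h3 : ε (g₀ (Fin.castSucc (2 : Fin 3))) = X 1 ^ 2 := by
      have : (g₀ (Fin.castSucc (2 : Fin 3)) : MvPolynomial (Fin 3) K) =
        -(X 2 ^ 2 - X 1 ^ 2) := rfl
      rw [this]
      simp [ε]
    rwa [h3] at h2
  have hrel : IsRelPrime (X 0 ^ 2 : MvPolynomial (Fin 3) K) (X 1 ^ 2) := by
    apply IsRelPrime.pow
    rw [(prime_X 0).irreducible.isRelPrime_iff_not_dvd]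
    exact X_not_dvd_X (by decide)
  have hu := hrel h1 h2
  have hhom : (ε h).IsHomogeneous (1 * k) := by
    apply hh.aeval
    intro i
    fin_cases i
    · exact isHomogeneous_X K 0
    · exact isHomogeneous_X K 1
    · exact isHomogeneous_zero _ _ _
  have hc : constantCoeff (ε h) = 0 := by
    rw [constantCoeff_eq]
    apply hhom.coeff_eq_zero
    simp only [map_zero]
    omega
  have := hu.map (constantCoeff : MvPolynomial (Fin 3) K →+* K)
  rw [hc] at this
  exact not_isUnit_zero this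

/-- Over every field of characteristic zero there is an essential arrangement of seven lines in
three-space with four homogeneous logarithmic derivations satisfying all hypotheses (H) for which
no minimal free resolution of `D(A)` has the asked shape. -/
theorem result (K : Type*) [Field K] [CharZero K] :
    ∃ (A : Fin 7 → Fin 3 → K)
      (θ : Fin 4 → Derivation K (MvPolynomial (Fin 3) K) (MvPolynomial (Fin 3) K))
      (g : Fin 4 → MvPolynomial (Fin 3) K),
      IsArrangement A ∧ IsEssential A ∧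
      (∀ i, θ i ∈ logDer A) ∧ (∀ i, ∃ d, IsHomogDer (θ i) d) ∧ AreQuotients A θ g ∧
      (∀ i, g i ≠ 0 ∧ InPos (g i)) ∧
      ¬ HasCommonDivisorMod (fun i : Fin 3 => g i.castSucc) (g (Fin.last 3)) ∧
      HasProjDimOne (MvPolynomial (Fin 3) K) (logDer A) ∧
      ¬ HasLinearShape A := by
  refine ⟨B, θ₀, g₀, B_arr, ?_, ?_, ?_, quotients, ?_, no_common, projDimOne, no_shape⟩
  · apply isEssential_of_det (i := 0) (j := 1) (k := 3)
    intro h
    simp [det3, B, Z] at h
  · intro i
    fin_cases i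
    · exact T0_mem
    · exact Submodule.add_mem _ T1_mem (Submodule.smul_mem _ _ T0_mem)
    · exact T2_mem
    · exact T3_mem
  · intro i
    fin_cases i
    · exact ⟨1, T0_homog⟩
    · refine ⟨4, fun j => ?_⟩
      exact (T1_homog j).add ((isHomogeneous_X_pow 0 3).mul (T0_homog j))
    · exact ⟨4, T2_homog⟩
    · exact ⟨4, T3_homog⟩
  · intro i
    fin_cases i
    · refine ⟨?_, 5, by norm_num, (isHomogeneous_X_pow 0 3).mul hq0⟩
      intro h
      have := congrArg (aeval (![1, 0, 0] : Fin 3 → K)) h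
      simp [g₀] at this
    · refine ⟨?_, 2, by norm_num, hq0.neg⟩
      intro h
      have := congrArg (aeval (![1, 0, 0] : Fin 3 → K)) h
      simp [g₀] at this
    · refine ⟨?_, 2, by norm_num, hq1.neg⟩
      intro h
      have := congrArg (aeval (![0, 1, 0] : Fin 3 → K)) h
      simp [g₀] at this
    · refine ⟨?_, 2, by norm_num, ((isHomogeneous_X K 2).mul hl).neg⟩
      intro h
      have := congrArg (aeval (![0, 1, 1] : Fin 3 → K)) h
      simp [g₀] at this

end Pool.Agent.Results.MP_ac8f1a_ag.SevenLines
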